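import Pool.Agent.Helper28.Few.Defs

/-!
# Circuits with gates of unbounded fan-in: definitions
-/

namespace Pool.Agent.Helper65.HC

open Pool.Agent.Helper65.LinSpace Pool.Agent.Helper78.Mpc

/-- A uniform family of circuits with gates of unbounded fan-in. The gates `0, 1, 2, …` have words
as values. Every gate reads the values of all gates before it, one after the other, and uses for
this a finite memory: the gate `i` in the state `q` reads the value `v` of the gate `j` and goes into
the state `step (⟨n⟩ ⟨i⟩ ⟨j⟩ ⟨q⟩ v)`, where `n` is the length of the input word and `⟨ ⟩` stands for the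
self-delimiting code (numbers are written in binary). When it has read all values the gate `i` gets
the value `out (⟨n⟩ ⟨i⟩ q)`. The functions `step` and `out` are computed in linear space. For example
these can be threshold gates: the state is the weighted sum of the values read so far. -/
structure Circ where
  step : List Bool → List Bool
  out : List Bool → List Bool
  step_lin : LinComp step
  out_lin : LinComp out

/-- The state of the gate `i` after it has read the values `v 0, …, v (j - 1)`. -/
def Circ.scan (A : Circ) (n i : ℕ) (v : ℕ → List Bool) : ℕ → List Bool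
  | 0 => []
  | j + 1 => A.step (sd n.bits ++ (sd i.bits ++ (sd j.bits ++ (sd (A.scan n i v j) ++ v j))))

/-- The value of the gate `i`, if the gates before it have the values `v 0, …, v (i - 1)`. The first
gates are the letters of the input word `w` and of the advice word `y`; such a gate has the value
`0 b` for the letter `b`. -/
def Circ.gate (A : Circ) (w y : List Bool) (i : ℕ) (v : ℕ → List Bool) : List Bool :=
  match (w ++ y)[i]? with
  | some b => [false, b]
  | none => A.out (sd w.length.bits ++ (sd i.bits ++ A.scan w.length i v i))

/-- The values of the gates before `i` (and empty words for the other ones). -/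
def Circ.vals (A : Circ) (w y : List Bool) : ℕ → ℕ → List Bool
  | 0 => fun _ => []
  | i + 1 => Function.update (A.vals w y i) i (A.gate w y i (A.vals w y i))

/-- The value of the gate `i`. -/
def Circ.val (A : Circ) (w y : List Bool) (i : ℕ) : List Bool := A.gate w y i (A.vals w y i)

/-- The value of the gate `i` begins with `1`. -/
def Circ.AcceptsAt (A : Circ) (w y : List Bool) (i : ℕ) : Prop :=
  (A.val w y i).head? = some true

/-- The values and states of all gates up to the gate `r` are words of length at most `s`. -/
def Circ.Fits (A : Circ) (w y : List Bool) (r s : ℕ) : Prop :=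
  ∀ i ≤ r, (A.val w y i).length ≤ s ∧
    ((w ++ y).length ≤ i → ∀ j ≤ i, (A.scan w.length i (A.vals w y i) j).length ≤ s)

/-- `A` accepts the input word `w` with the advice word `y` at some gate `r`, with values and states
of at most `s` bits, where `r s l ^ 3 ≤ C (n + 1) ^ 2` and `s l ^ 2 ≤ C (n + 1)`; here `n` is the length
of `w`, and `l = ⌊log₂ n⌋ + 1`. -/
def Circ.Within (A : Circ) (C : ℝ) (w y : List Bool) : Prop :=
  ∃ r s : ℕ, A.AcceptsAt w y r ∧ A.Fits w y r s ∧
    (r : ℝ) * s * ((Nat.log 2 w.length : ℝ) + 1) ^ 3 ≤ C * ((w.length : ℝ) + 1) ^ 2 ∧
    (s : ℝ) * ((Nat.log 2 w.length : ℝ) + 1) ^ 2 ≤ C * ((w.length : ℝ) + 1)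

end Pool.Agent.Helper65.HC
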