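import Pool.Agent.Helper65.HC.Goals
import Pool.Agent.Helper65.RT.Sim
import Pool.Agent.Helper28.Few.Main

/-!
# Circuits with gates of unbounded fan-in are weaker than linear space
-/

namespace Pool.Agent.Helper65.HC

open Pool.Agent.Helper65.LinSpace Pool.Agent.Helper78.Mpc Pool.Agent.Helper28.Ram Finset Filter
open Pool.Agent.Helper65.RT (qT CT ls_qT)
open Pool.Agent.Helper28.Long (ZL)

theorem LS.sT {α : Type} [Ctx α] {n T : α → ℕ} (hn : LS n) (hT : LS T) :
    LS (fun z => sT (n z) (T z)) := by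
  have h1 := ls_qT hn
  have h2 : LS (fun z => ZL (n z)) := Pool.Agent.Helper28.Long.LS.ZL hn
  unfold HC.sT
  exact LS.min (LS.div hT (LS.mul h1 h1)) (LS.min (LS.sub h1 (LS.const 1)) h2)

theorem LS.NF : LS HC.NF := by
  have h : LS (fun x => qT (Nat.log 2 x)) := ls_qT (by fun_prop)
  unfold HC.NF
  exact LS.mul (LS.add h (LS.const 1)) (LS.mul h h)

theorem LS.accF (hV : LSV_stmt) (hW : LSW_stmt) :
    LS (fun z : ℕ × ℕ × ℕ × ℕ => accF z.1 z.2.1 z.2.2.1 z.2.2.2) := by
  have hx : LS (fun z : ℕ × ℕ × ℕ × ℕ => z.2.1) := by fun_prop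
  have hT : LS (fun z : ℕ × ℕ × ℕ × ℕ => z.2.2.2) := by fun_prop
  have hn : LS (fun z : ℕ × ℕ × ℕ × ℕ => Nat.log 2 z.2.1) := by fun_prop
  have hq : LS (fun z : ℕ × ℕ × ℕ × ℕ => qT (Nat.log 2 z.2.1)) := ls_qT hn
  have hs : LS (fun z : ℕ × ℕ × ℕ × ℕ => HC.sT (Nat.log 2 z.2.1) z.2.2.2) := LS.sT hn hT
  have hqq : LS (fun z : ℕ × ℕ × ℕ × ℕ => qT (Nat.log 2 z.2.1) * qT (Nat.log 2 z.2.1)) :=
    LS.mul hq hq
  have hi : LS (fun z : ℕ × ℕ × ℕ × ℕ => z.2.2.2 % (qT (Nat.log 2 z.2.1) *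
      qT (Nat.log 2 z.2.1))) := LS.mod hT hqq
  obtain ⟨h1, h2⟩ := hW (e := fun z : ℕ × ℕ × ℕ × ℕ => z.1) (x := fun z => z.2.1)
    (y := fun z => z.2.2.1) (T := fun z => z.2.2.2) (by fun_prop) hx (by fun_prop) hT
  unfold HC.accF
  exact LS.mul (LS.lt01 hi (LS.mul hq (LS.div hq (LS.add hs (LS.const 1)))))
    (Pool.Agent.Helper59.Ram.LS_accN (hV hx hi h1 h2))

theorem qT_pos (n : ℕ) : 0 < qT n := Nat.succ_pos _

theorem qT_sq_le (n : ℕ) : qT n * qT n ≤ 2 ^ (2 * ll n) := by
  have h1 : qT n ≤ n + 1 := by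
    unfold RT.qT
    have := Nat.div_le_self n (ll n)
    omega
  have h2 : n + 1 ≤ 2 ^ ll n := by
    unfold ll
    exact Nat.lt_pow_succ_log_self (by norm_num) n
  calc qT n * qT n ≤ 2 ^ ll n * 2 ^ ll n := Nat.mul_le_mul (h1.trans h2) (h1.trans h2)
    _ = 2 ^ (2 * ll n) := by rw [← pow_add]; congr 1; ring

theorem lt_two_pow (n : ℕ) : n < 2 ^ (2 * ll n) := by
  have h2 : n < 2 ^ ll n := by
    unfold ll
    exact Nat.lt_pow_succ_log_self (by norm_num) n
  refine lt_of_lt_of_le h2 (Nat.pow_le_pow_right (by norm_num) ?_)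
  omega

/-- Every circuit has a code. -/
theorem exists_good (hTree : TREE_stmt) (hW : LSW_stmt) (hC : WCS_stmt) (hP : PAR_stmt)
    (A : Circ) (C : ℝ) : ∃ e n₀ : ℕ, ∀ w y : List Bool, n₀ ≤ w.length →
    (∀ T < NF (num w), accF e (num w) (num y) T ≠ 0 → ∃ r, A.AcceptsAt w y r) ∧
    (A.Within C w y → ∃ T < NF (num w), accF e (num w) (num y) T ≠ 0) := by
  obtain ⟨eS, eO, c, hA⟩ := hC A
  obtain ⟨n₀, hn₀⟩ := eventually_atTop.1 (hP.2 c)
  obtain ⟨n₁, hn₁⟩ := eventually_atTop.1 (hP.1 C)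
  refine ⟨Nat.pair eS eO, n₀ + n₁, fun w y hw => ?_⟩
  have hlog : Nat.log 2 (num w) = w.length := Pool.Agent.Helper65.LinSpace.log_num w
  have hNF : NF (num w) = (qT w.length + 1) * (qT w.length * qT w.length) := by
    unfold NF
    rw [hlog]
  set q := qT w.length with hq
  have hq0 : 0 < q := qT_pos _
  have hqq : 0 < q * q := Nat.mul_pos hq0 hq0
  have hok : ∀ T, (machT (Nat.pair eS eO) (num w) (num y) T).Ok := fun T =>
    (hW (α := ℕ) (e := fun _ => Nat.pair eS eO) (x := fun _ => num w) (y := fun _ => num y)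
      (T := fun _ => T) (LS.const _) (LS.const _) (LS.const _) (LS.const _)).1.ok 0
  -- the words
  have hmain : ∀ T, let S := sT w.length T
      (∀ i < 2 ^ (2 * ll w.length), accN ((machT (Nat.pair eS eO) (num w) (num y) T).val i) = 1 →
        A.AcceptsAt w y i) ∧
      ∀ r < 2 ^ (2 * ll w.length), A.Fits w y r S → A.AcceptsAt w y r →
        accN ((machT (Nat.pair eS eO) (num w) (num y) T).val r) = 1 := by
    intro T S
    have hS : S ≤ ZL w.length := (min_le_right _ _).trans (min_le_right _ _)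
    obtain ⟨h1, h2, h3⟩ := hn₀ w.length (by omega) S hS
    have h4 := hA w y (prm (Nat.pair eS eO) (num w) (num y) T) (2 * ll w.length)
      (qT (Nat.log 2 (num w)) / (sT (Nat.log 2 (num w)) T + 1)) (qT (Nat.log 2 (num w)))
      (by simp [prm]) (by simp [prm]) rfl rfl (lt_two_pow _)
      (by simpa [prm, hlog] using h1) (by simpa [prm, hlog] using h2)
      (by simpa [prm, hlog] using h3 (num w) hlog)
    simpa [prm, hlog, machT] using h4
  have hMK : ∀ T, (machT (Nat.pair eS eO) (num w) (num y) T).K = q := fun T => by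
    show qT (Nat.log 2 (num w)) = q
    rw [hlog]
  have hMB : ∀ T, (machT (Nat.pair eS eO) (num w) (num y) T).B =
      q / (sT w.length T + 1) := fun T => by
    show qT (Nat.log 2 (num w)) / (sT (Nat.log 2 (num w)) T + 1) = _
    rw [hlog]
  have hacc : ∀ T, accF (Nat.pair eS eO) (num w) (num y) T =
      lt01 (T % (q * q)) (q * (q / (sT w.length T + 1))) *
        accN ((machT (Nat.pair eS eO) (num w) (num y) T).sim (T % (q * q))) := by
    intro T
    unfold accF
    rw [hlog]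
  constructor
  · intro T hT hne
    rw [hacc] at hne
    have h1 : T % (q * q) < q * (q / (sT w.length T + 1)) := by
      by_contra h
      apply hne
      unfold lt01
      rw [if_neg h, zero_mul]
    have h2 : accN ((machT (Nat.pair eS eO) (num w) (num y) T).sim (T % (q * q))) ≠ 0 :=
      fun h => hne (by rw [h, mul_zero])
    rw [hTree _ (hok T) _ (by rw [hMK, hMB]; exact h1)] at h2
    have h3 : T % (q * q) < 2 ^ (2 * ll w.length) :=
      lt_of_lt_of_le (Nat.mod_lt _ hqq) (qT_sq_le _)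
    exact ⟨_, (hmain T).1 _ h3 (le_antisymm (accN_le _) (Nat.pos_of_ne_zero h2))⟩
  · rintro ⟨r, s, hr, hfit, b1, b2⟩
    have hs : 1 ≤ s := by
      have h1 := (hfit r le_rfl).1
      have h2 : A.val w y r ≠ [] := by
        intro h
        unfold Circ.AcceptsAt at hr
        rw [h] at hr
        simp at hr
      have h3 : 0 < (A.val w y r).length := List.length_pos_iff.2 h2
      omega
    obtain ⟨h1, h2, h3⟩ := hn₁ w.length (by omega) r s hs b1 b2
    have hle : q * (q / (s + 1)) ≤ q * q := Nat.mul_le_mul_left _ (Nat.div_le_self _ _)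
    have hrq : r < q * q := lt_of_lt_of_le h3 hle
    have e1 : (s * (q * q) + r) / (q * q) = s := by
      rw [mul_comm, Nat.mul_add_div hqq, Nat.div_eq_of_lt hrq, add_zero]
    have e2 : (s * (q * q) + r) % (q * q) = r := by
      rw [mul_comm, Nat.mul_add_mod, Nat.mod_eq_of_lt hrq]
    have e3 : sT w.length (s * (q * q) + r) = s := by
      unfold sT
      rw [← hq, e1]
      exact min_eq_left (le_min h1 h2)
    refine ⟨s * (q * q) + r, ?_, ?_⟩
    · rw [hNF]
      have : s ≤ q := by omega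
      calc s * (q * q) + r < s * (q * q) + q * q := by omega
        _ = (s + 1) * (q * q) := by ring
        _ ≤ _ := Nat.mul_le_mul_right _ (by omega)
    · rw [hacc, e2, e3, lt01, if_pos h3, one_mul,
        hTree _ (hok _) _ (by rw [hMK, hMB, e3]; exact h3)]
      have h5 := (hmain (s * (q * q) + r)).2 r (lt_of_lt_of_le hrq (qT_sq_le _))
        (by rw [e3]; exact hfit) hr
      omega

theorem fin (hTree : TREE_stmt) (hV : LSV_stmt) (hW : LSW_stmt) (hC : WCS_stmt)
    (hP : PAR_stmt) : FIN_stmt := by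
  intro c
  refine ⟨fun A L C h1 h2 => ?_, ?_⟩
  · exact Pool.Agent.Helper78.Gen2.alt_lin accF NF (LS.accF hV hW) LS.NF c L
      (fun w y => ∃ r, A.AcceptsAt w y r) (A.Within C) (exists_good hTree hW hC hP A C)
      (fun w h => h1 w ((Pool.Agent.Helper28.Few.alt_iff _ _ _).1 h))
      (fun w hw => (Pool.Agent.Helper28.Few.alt_iff _ _ _).2 (h2 w hw))
  · obtain ⟨L, s, h1, h2, h3, h4⟩ := Pool.Agent.Helper78.Gen2.alt_main accF NF
      (LS.accF hV hW) LS.NF c
    refine ⟨L, s, h1, h2, h3, fun A C => ?_⟩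
    have h := h4 (fun w y => ∃ r, A.AcceptsAt w y r) (A.Within C)
      (exists_good hTree hW hC hP A C)
    simp only [Pool.Agent.Helper28.Few.alt_iff] at h
    exact h

end Pool.Agent.Helper65.HC
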