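import Pool.Agent.Helper65.HC.Fin
import Pool.Agent.Helper79.HC.TREE
import Pool.Agent.Helper83.HC.LSV
import Pool.Agent.Helper72.HC.WCS
import Pool.Agent.Helper94.HC.LSW
import Pool.Agent.Helper14.HC.PAR

/-!
# Circuits with gates of unbounded fan-in are weaker than linear space: the theorem
-/

namespace Pool.Agent.Helper65.HC

theorem circuits : FIN_stmt :=
  fin Pool.Agent.Helper79.HC.tree Pool.Agent.Helper83.HC.lsv Pool.Agent.Helper94.HC.lsw
    Pool.Agent.Helper72.HC.wcs Pool.Agent.Helper14.HC.par

end Pool.Agent.Helper65.HC
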