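import Pool.Agent.Helper65.HC.Num
import Pool.Agent.Helper78.Gen2.Main

/-!
# Circuits with gates of unbounded fan-in: the statements of the parts

Every statement comes with its proof in words.
-/

namespace Pool.Agent.Helper65.HC

open Pool.Agent.Helper65.LinSpace Pool.Agent.Helper78.Mpc Pool.Agent.Helper28.Ram Finset Filter

/-- TREE. The simulation is right. Facts: `W n < 2 ^ (σ * n)`, so `dig (2 ^ σ) (W n) i = val i` for `i < n`
(induction on `n`; `W (n + 1) = W n + 2 ^ (σ * n) * val n`), and `sc i V n < 2 ^ σ`.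
(1) Claim for `k < K`, `j ≤ k + 1` and `2 * j ≤ h + (if j = k + 1 then 1 else 0)`:
`gval 2 (σ * B) nF (fun _ => ini) ch h (k * (K + 2) + j) = nv k j`. Induction on `h`. The node
`u = k * (K + 2) + j` has `u / (K + 2) = k`, `u % (K + 2) = j` (`j < K + 2`). For `j = 0` both `leaf` and `nF u _` are
`ini = nv k 0` (`sc _ _ 0 = st`). For `h = 0` necessarily `j = 0`. Let `j ≥ 1`, `h = h' + 1`. The digits `0`, `1` of
`tab (2 ^ (σ * B)) 2 (…)` are the values of the children (`gval_lt`, `dig_tab`; for this one needs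
`nF u V < 2 ^ (σ * B)`, `ini < 2 ^ (σ * B)`: `tab_lt`, and for `fin` induction on `n`). If `j ≤ k`, the
children are `u - 1 = k * (K + 2) + (j - 1)` and `(j - 1) * (K + 2) + j`, the node `(j - 1, j)`; both have the right
value by induction, and `adv k (j - 1) (nv k (j - 1)) (nv (j - 1) j) = nv k j`: in the table entry `e`, the
inner `nrec` continues the `nrec` of `sc (k B + e) (W (j B)) (j B)` from `(j - 1) * B` on (induction on the
number of steps `t ≤ B`; `dig (2 ^ σ) (nv (j - 1) j) t = val ((j - 1) B + t) = dig (2 ^ σ) (W (j B)) ((j - 1) B + t)`;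
`sc i V n` depends only on the digits `< n` of `V`). If `j = k + 1`, the child `0` is `(k, k)`, and
`fin k (nv k k) B = nv k (k + 1)`: by induction on `n ≤ B`: `fin k (nv k k) n = tab (2 ^ σ) n (fun e => val (k B + e))`
(`tab_succ` or the definition of `tab` as a sum); the inner `nrec` continues `sc (k B + e) (W (k B)) (k B)` and
gives `sc (k B + e) (W (k B + e)) (k B + e)`.
(2) `i < K * B`, `k = i / B < K`: the node `(k, k + 1)` with `h = 2 K ≥ 2 k + 1`; the digit `i % B` of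
`nv k (k + 1)` is `val (k B + i % B) = val i < 2 ^ σ`. -/
def TREE_stmt : Prop := ∀ m : Mach, m.Ok → ∀ i < m.K * m.B, m.sim i = m.val i

/-- LSV. The simulation is computed in linear space. `LS.gval` (`Mpc/GTree.lean`) with
`p = pR n` (`n = log₂ x`), `D = 2`, `L = σ * B`, `h = 2 * K`, `G = (K + 2) * (K + 2)`, `C = CT x`. Bounds: `p ≤ 2 ^ (9 ll n)`
(see PARB of RT: `Pool.Agent.Helper94.RT.PARB`), `ll n * qT n ≤ 2 (n + 1)`, so `p ^ (3 L) ≤ 2 ^ (54 (n + 1))` and
`MM p 2 ^ (2 K) = (7 (p - 1)) ^ (2 K) ≤ 2 ^ (12 ll n * 2 qT n) ≤ 2 ^ (48 (n + 1))`; `2 L < p - 1`;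
`two_pow_log_le`. `ch u i ≤ u + G`. `nF u V < 2 ^ L` as in TREE. `nF` in linear space: `LS.tab`, `LS.nrec` with the
bound `C` (states smaller than `2 ^ σ ≤ 2 ^ L ≤ C`, or at most `dig _ _ _ < 2 ^ σ` at the start); in `fin` the
step function must be in the class for all `e`, so replace `2 ^ (σ * e)` by `(2 ^ σ) ^ min e B` (only
`e < B` is used). -/
def LSV_stmt : Prop := ∀ {α : Type} [Ctx α] {m : α → Mach} {x i : α → ℕ}, LS x → LS i →
    LSM m (fun z => RT.CT (x z)) →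
    (∀ z, (m z).σ * (m z).B ≤ RT.qT (Nat.log 2 (x z)) ∧ (m z).K ≤ RT.qT (Nat.log 2 (x z))) →
    LS (fun z => (m z).sim (i z))

/-- WCS. Circuits on words and circuits on numbers. The codes come from `fnN_spec`; `c` is the sum of
the two constants. `fnN e S … (num u)` is `num (f u)` if `|f u| ≤ S` and `0` otherwise, if
`c' * (S + |u| + 2) ≤ Λ`, `c' + Λ + S + |u| + 1 ≤ β`, `2 ^ (S + 1) ≤ M`. For `i < 2 ^ t` we have
`|i.bits| ≤ t`, `bitsN i = num i.bits` (`bitsN_eq`), so all arguments `u` have at most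
`3 (2 t + 1) + 2 S + 1 + S` letters; `sdN_num`, `catN_num`, `letN_num` (`letN (num v) i = codeO v[i]?`),
`Nat.log 2 (num w) = |w|` (`log_num`), `num [false, b] = 4 + 2 * b.toNat`. Put `m = P.mach B K`.
(1) Soundness: by strong induction on `i < 2 ^ t`: if `m.val i ≠ 0` then `m.val i = num (A.val w y i)` and
`|A.val w y i| ≤ S`. If `i` is a letter this is the definition (`capN`). Otherwise the last state is not
`0`, so all states and all values which are read are not `0` (`step` gives `0` for `q * v = 0`, and a state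
`0` stays `0`), so all values `dig (2 ^ (S + 1)) (m.W i) j = m.val j`, `j < i`, are right by induction, and
by induction on `j ≤ i` the states `m.sc i (m.W i) j` are `num (A.scan … j)` with length `≤ S` (the start is
`1 = num []`); `A.vals w y i j = A.val w y j` for `j < i` (induction on `i`). If `accN (m.val i) = 1` then
`m.val i ≠ 0` and `accN_num` gives the claim.
(2) Completeness: if it fits up to `r` then by strong induction `m.val i = num (A.val w y i)` for all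
`i ≤ r`; inside, by induction on `j ≤ i`, `m.sc i (m.W i) j = num (A.scan w.length i (A.vals w y i) j)`. -/
def WCS_stmt : Prop := ∀ A : Circ, ∃ eS eO c : ℕ, ∀ (w y : List Bool) (P : Prm) (t B K : ℕ),
    P.eS = eS → P.eO = eO → P.x = num w → P.y = num y → w.length < 2 ^ t →
    c * (4 * P.S + 6 * t + 8) ≤ P.Λ → c + P.Λ + 4 * P.S + 6 * t + 8 ≤ P.β → 2 ^ (P.S + 1) ≤ P.M →
    (∀ i < 2 ^ t, accN ((P.mach B K).val i) = 1 → A.AcceptsAt w y i) ∧
    ∀ r < 2 ^ t, A.Fits w y r P.S → A.AcceptsAt w y r → accN ((P.mach B K).val r) = 1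

/-- LSW. The circuits of the simulation form a family computed in linear space. `S ≤ q - 1` with
`q = qT n ≥ 1`, so `q / (S + 1) ≥ 1` and `(S + 1) * (q / (S + 1)) ≤ q`; `S ≤ ZL n ≤ n`; `capN_lt`; `LS.fnN` as in
`lsm_machH` of `Few/Mach.lean` (bounds `CR x`); `2 ^ (σ * B) ≤ 2 ^ q ≤ 2 ^ (n + 1) ≤ CT x`. `LS.ZL`,
`Pool.Agent.Helper65.RT.ls_qT` (in `RT/Sim.lean`), `LS.letN`, `LS.catN`, `LS.sdN`, `LS.bitsN`. -/
def LSW_stmt : Prop := ∀ {α : Type} [Ctx α] {e x y T : α → ℕ}, LS e → LS x → LS y → LS T →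
    LSM (fun z => machT (e z) (x z) (y z) (T z)) (fun z => RT.CT (x z)) ∧
    ∀ z, (machT (e z) (x z) (y z) (T z)).σ * (machT (e z) (x z) (y z) (T z)).B ≤
      RT.qT (Nat.log 2 (x z)) ∧
      (machT (e z) (x z) (y z) (T z)).K ≤ RT.qT (Nat.log 2 (x z))

/-- PAR. With `l = ll n`, `q = qT n = n / l + 1`: `n + 1 ≤ q * l`. (1) For large `n`: `s l ^ 2 ≤ C (n + 1)` and
`l ≥ 4 |C| + 4` give `4 s l ≤ n + 1 ≤ q l`, so `4 s ≤ q` and `s + 1 ≤ 2 s ≤ q`; `s ≤ ZL n` by `Long.le_ZL`;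
`q / (s + 1) ≥ q / (2 (s + 1)) ≥ q / (4 s)` (real division on the right), so
`q * (q / (s + 1)) ≥ q ^ 2 / (4 s) ≥ (n + 1) ^ 2 / (4 s l ^ 2) > r` since `r s l ^ 3 ≤ C (n + 1) ^ 2` and `l > 4 C`.
(2) `ZL n = LW n / ll (ll n)`, `ll (ll n)` tends to infinity, and `ll n` is small compared with
`LW n = n / ll n`: see `ev_par` in `Long/Par.lean` and its proof. `S + 1 ≤ n + 1`, so
`2 ^ (S + 1) ≤ CR x` if `log₂ x = n`. -/
def PAR_stmt : Prop :=
  (∀ C : ℝ, ∀ᶠ n : ℕ in atTop, ∀ r s : ℕ, 1 ≤ s →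
    (r : ℝ) * s * ((Nat.log 2 n : ℝ) + 1) ^ 3 ≤ C * ((n : ℝ) + 1) ^ 2 →
    (s : ℝ) * ((Nat.log 2 n : ℝ) + 1) ^ 2 ≤ C * ((n : ℝ) + 1) →
    s ≤ RT.qT n - 1 ∧ s ≤ Pool.Agent.Helper28.Long.ZL n ∧ r < RT.qT n * (RT.qT n / (s + 1))) ∧
  ∀ c : ℕ, ∀ᶠ n : ℕ in atTop, ∀ S ≤ Pool.Agent.Helper28.Long.ZL n,
    c * (4 * S + 6 * (2 * ll n) + 8) ≤ LW n ∧
    c + LW n + 4 * S + 6 * (2 * ll n) + 8 ≤ 2 ^ (2 * ll n) ∧
    (∀ x : ℕ, Nat.log 2 x = n → 2 ^ (S + 1) ≤ CR x)

/-- FIN (may assume TREE, LSV, WCS, LSW, PAR). As `Few/Main.lean`: `LS.accF` from LSW and LSV, `LS.NF`; for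
every circuit `A` and every `C` the code `e = Nat.pair eS eO` and `n₀`: for `|w| ≥ n₀`,
(a) if `accF e (num w) (num y) T ≠ 0` then, with `S = sT n T`, `q = qT n`, `i = T % (q * q) < q * (q / (S + 1))`,
TREE (`Ok` from LSW) gives `accN (val i) = 1`, and `i < q * q ≤ (n + 1) ^ 2 ≤ 2 ^ (2 ll n)`, so WCS with
`t = 2 * ll n` gives `AcceptsAt w y i`; (b) if `A.Within C w y` with `r`, `s` (`1 ≤ s` since the word
`A.val w y r` is not empty) then `T = s * (q * q) + r` works: `T / (q * q) = s`, `T % (q * q) = r` since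
`r < q * (q / (s + 1)) ≤ q * q`, `T < (q + 1) * (q * q) = NF x`. Then `Gen2.alt_main`, `Gen2.alt_lin`,
`alt_iff` (`Few/Main.lean`). -/
def FIN_stmt : Prop := ∀ c : ℕ,
    (∀ (A : Circ) (L : Set (List Bool)) (C : ℝ),
      (∀ w, Alt true (c * w.length) (fun v => ∃ r, A.AcceptsAt w v r) → w ∈ L) →
      (∀ w ∈ L, Alt true (c * w.length) (A.Within C w)) → DLINSPACE L) ∧
    ∃ (L : Set (List Bool)) (s : ℕ → List Bool), DLINSPACE L ∧
      (∀ n, (s n).length = n) ∧
      (∀ w, w ∈ L ↔ Odd ((List.zipWith and (s w.length) w).count true)) ∧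
      ∀ (A : Circ) (C : ℝ), ∃ c' : ℝ, ∀ (n : ℕ) (α : List Bool),
        ∀ M, M = L ∨ M = Lᶜ →
          ({w : List Bool | w.length = n ∧
            (Alt true (c * n) (fun v => ∃ r, A.AcceptsAt w (α ++ v) r) → w ∈ M) ∧
            (w ∈ M → Alt true (c * n) fun v => A.Within C w (α ++ v))}.ncard : ℝ) ≤
          2 ^ n / 2 +
            c' * ((min α.length (n - α.length) : ℕ) + 1) * 2 ^ (((n : ℝ) + α.length) / 2)

end Pool.Agent.Helper65.HC
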