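import Pool.Agent.Helper65.HC.Defs
import Pool.Agent.Helper78.Mpc.GTree
import Pool.Agent.Helper78.Mpc.MParam
import Pool.Agent.Helper28.Long.Par
import Pool.Agent.Helper65.RT.Goals

/-!
# Circuits with gates of unbounded fan-in: circuits on numbers, and the simulation

The gates are divided into `K` groups of `B` gates. A node of the tree is a pair `(k, j)` with
`j ≤ k + 1`, coded as `k * (K + 2) + j`. For `j ≤ k` its value consists of the states of the gates of
the group `k` after they have read the values of all gates before the group `j`; the children are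
`(k, j - 1)` and `(j - 1, j)`. For `j = k + 1` its value consists of the values of the gates of the
group `k`; it has only the child `(k, k)`.
-/

namespace Pool.Agent.Helper65.HC

open Pool.Agent.Helper65.LinSpace Pool.Agent.Helper78.Mpc Pool.Agent.Helper28.Ram Finset

/-- A circuit on numbers, and the parameters of the simulation. -/
structure Mach where
  σ : ℕ
  B : ℕ
  K : ℕ
  st : ℕ
  step : ℕ → ℕ → ℕ → ℕ → ℕ
  out : ℕ → ℕ → ℕ

/-- All numbers have `σ` bits. -/
structure Mach.Ok (m : Mach) : Prop where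
  hσ : 0 < m.σ
  hB : 0 < m.B
  hst : m.st < 2 ^ m.σ
  hstep : ∀ i j q v, m.step i j q v < 2 ^ m.σ
  hout : ∀ i q, m.out i q < 2 ^ m.σ

namespace Mach

variable (m : Mach)

/-- The state of the gate `i` after it has read the first `n` of the values which are coded by `V`
(in base `2 ^ σ`). -/
def sc (i V n : ℕ) : ℕ := nrec m.st (fun j q => m.step i j q (dig (2 ^ m.σ) V j)) n

/-- The code of the values of the gates `0, …, n - 1`. -/
def W : ℕ → ℕ
  | 0 => 0
  | n + 1 => W n + 2 ^ (m.σ * n) * m.out n (m.sc n (W n) n)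

/-- The value of the gate `i`. -/
def val (i : ℕ) : ℕ := m.out i (m.sc i (m.W i) i)

/-! ### The simulation -/

/-- The states at the start. -/
def ini : ℕ := tab (2 ^ m.σ) m.B fun _ => m.st

/-- The states of the gates of the group `k` after they have read the group `j`, `P` being the states
before and `V` the values of the group `j`. -/
def adv (k j P V : ℕ) : ℕ := tab (2 ^ m.σ) m.B fun e =>
  nrec (dig (2 ^ m.σ) P e)
    (fun t q => m.step (k * m.B + e) (j * m.B + t) q (dig (2 ^ m.σ) V t)) m.B

/-- The values of the first `n` gates of the group `k`, `P` being the states of the gates of this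
group after they have read all gates before the group. -/
def fin (k P n : ℕ) : ℕ :=
  nrec 0 (fun e V => V + 2 ^ (m.σ * e) * m.out (k * m.B + e)
    (nrec (dig (2 ^ m.σ) P e)
      (fun t q => m.step (k * m.B + e) (k * m.B + t) q (dig (2 ^ m.σ) V t)) e)) n

/-- The operation of the node `u`; `V` codes the values of the two children (in base
`2 ^ (σ * B)`). -/
def nF (u V : ℕ) : ℕ :=
  ifz (u % (m.K + 2)) m.ini
    (ifz (le01 (u % (m.K + 2)) (u / (m.K + 2)))
      (m.fin (u / (m.K + 2)) (dig (2 ^ (m.σ * m.B)) V 0) m.B)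
      (m.adv (u / (m.K + 2)) (u % (m.K + 2) - 1) (dig (2 ^ (m.σ * m.B)) V 0)
        (dig (2 ^ (m.σ * m.B)) V 1)))

/-- The children of the node `u`. -/
def ch (u i : ℕ) : ℕ :=
  ifz (u % (m.K + 2)) 0
    (ifz i (u - 1) ((u % (m.K + 2) - 1) * (m.K + 2) + u % (m.K + 2)))

/-- The result of the simulation for the gate `i`. -/
def sim (i : ℕ) : ℕ :=
  dig (2 ^ m.σ) (gval 2 (m.σ * m.B) m.nF (fun _ => m.ini) m.ch (2 * m.K)
    (i / m.B * (m.K + 2) + (i / m.B + 1))) (i % m.B)

/-- The value of the node `(k, j)`. -/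
def nv (k j : ℕ) : ℕ :=
  if j ≤ k then tab (2 ^ m.σ) m.B fun e => m.sc (k * m.B + e) (m.W (j * m.B)) (j * m.B)
  else tab (2 ^ m.σ) m.B fun e => m.val (k * m.B + e)

end Mach

/-- A family of circuits whose parameters and functions are computed in linear space. -/
structure LSM {α : Type} [Ctx α] (m : α → Mach) (C : α → ℕ) : Prop where
  σ : LS (fun z => (m z).σ)
  B : LS (fun z => (m z).B)
  K : LS (fun z => (m z).K)
  st : LS (fun z => (m z).st)
  step : LS (fun z : α × ℕ × ℕ × ℕ × ℕ => (m z.1).step z.2.1 z.2.2.1 z.2.2.2.1 z.2.2.2.2)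
  out : LS (fun z : α × ℕ × ℕ => (m z.1).out z.2.1 z.2.2)
  bd : LS C
  ok : ∀ z, (m z).Ok
  hC : ∀ z, 2 ^ ((m z).σ * (m z).B) ≤ C z

/-! ### The circuits on numbers of the circuits on words -/

/-- The codes of the functions of a circuit, the input, and the bounds. -/
structure Prm where
  eS : ℕ
  eO : ℕ
  Λ : ℕ
  β : ℕ
  M : ℕ
  x : ℕ
  y : ℕ
  /-- the length of values and states -/
  S : ℕ

namespace Prm

variable (P : Prm)

/-- The new state of the gate `i` in the state `q` which reads the value `v` of the gate `j`. -/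
def step (i j q v : ℕ) : ℕ :=
  capN P.S (ifz (q * v) 0 (fnN P.eS P.S P.Λ P.β P.M (catN (sdN (bitsN (Nat.log 2 P.x)))
    (catN (sdN (bitsN i)) (catN (sdN (bitsN j)) (catN (sdN q) v))))))

/-- The value of the gate `i` with the last state `q`. -/
def out (i q : ℕ) : ℕ :=
  capN P.S (ifz (letN (catN P.x P.y) i)
    (ifz q 0 (fnN P.eO P.S P.Λ P.β P.M (catN (sdN (bitsN (Nat.log 2 P.x)))
      (catN (sdN (bitsN i)) q))))
    (2 + 2 * letN (catN P.x P.y) i))

/-- The circuit on numbers. -/
def mach (B K : ℕ) : Mach where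
  σ := P.S + 1
  B := B
  K := K
  st := 1
  step := P.step
  out := P.out

end Prm

/-! ### The parameters -/

/-- The bound `S` which is coded by `T`. -/
def sT (n T : ℕ) : ℕ :=
  min (T / (RT.qT n * RT.qT n)) (min (RT.qT n - 1) (Pool.Agent.Helper28.Long.ZL n))

/-- The parameters for the input `x`, `y` and the bounds coded by `T`. -/
def prm (e x y T : ℕ) : Prm where
  eS := (Nat.unpair e).1
  eO := (Nat.unpair e).2
  Λ := LW (Nat.log 2 x)
  β := 2 ^ (2 * ll (Nat.log 2 x))
  M := CR x
  x := x
  y := y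
  S := sT (Nat.log 2 x) T

/-- The circuit on numbers for the input `x`, `y` and the bounds coded by `T`. -/
def machT (e x y T : ℕ) : Mach :=
  (prm e x y T).mach (RT.qT (Nat.log 2 x) / (sT (Nat.log 2 x) T + 1)) (RT.qT (Nat.log 2 x))

/-- `1` if the gate coded by `T` is accepting. -/
def accF (e x y T : ℕ) : ℕ :=
  lt01 (T % (RT.qT (Nat.log 2 x) * RT.qT (Nat.log 2 x)))
    (RT.qT (Nat.log 2 x) * (RT.qT (Nat.log 2 x) / (sT (Nat.log 2 x) T + 1))) *
  accN ((machT e x y T).sim (T % (RT.qT (Nat.log 2 x) * RT.qT (Nat.log 2 x))))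

/-- The number of codes of bounds. -/
def NF (x : ℕ) : ℕ :=
  (RT.qT (Nat.log 2 x) + 1) * (RT.qT (Nat.log 2 x) * RT.qT (Nat.log 2 x))

end Pool.Agent.Helper65.HC
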